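import Mathlib

set_option autoImplicit false

namespace H13.SA

/-- `K[t]/(t^2)`: the element `re + im t`. -/
@[ext] structure Lam (K : Type) where
  re : K
  im : K

namespace Lam
variable {K : Type} [Field K]

instance : Zero (Lam K) := ⟨⟨0, 0⟩⟩
instance : One (Lam K) := ⟨⟨1, 0⟩⟩
instance : Add (Lam K) := ⟨fun a b => ⟨a.re + b.re, a.im + b.im⟩⟩
instance : Neg (Lam K) := ⟨fun a => ⟨-a.re, -a.im⟩⟩
instance : Mul (Lam K) := ⟨fun a b => ⟨a.re * b.re, a.re * b.im + a.im * b.re⟩⟩

@[simp] theorem zero_re : (0 : Lam K).re = 0 := rfl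
@[simp] theorem zero_im : (0 : Lam K).im = 0 := rfl
@[simp] theorem one_re : (1 : Lam K).re = 1 := rfl
@[simp] theorem one_im : (1 : Lam K).im = 0 := rfl
@[simp] theorem add_re (a b : Lam K) : (a + b).re = a.re + b.re := rfl
@[simp] theorem add_im (a b : Lam K) : (a + b).im = a.im + b.im := rfl
@[simp] theorem neg_re (a : Lam K) : (-a).re = -a.re := rfl
@[simp] theorem neg_im (a : Lam K) : (-a).im = -a.im := rfl
@[simp] theorem mul_re (a b : Lam K) : (a * b).re = a.re * b.re := rfl
@[simp] theorem mul_im (a b : Lam K) : (a * b).im = a.re * b.im + a.im * b.re := rfl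

instance : CommRing (Lam K) :=
  CommRing.ofMinimalAxioms
    (fun _ _ _ => by ext <;> simp <;> ring)
    (fun _ => by ext <;> simp)
    (fun _ => by ext <;> simp)
    (fun _ _ _ => by ext <;> simp <;> ring)
    (fun _ _ => by ext <;> simp <;> ring)
    (fun _ => by ext <;> simp)
    (fun _ _ _ => by ext <;> simp <;> ring)

@[simp] theorem sub_re (a b : Lam K) : (a - b).re = a.re - b.re := by
  rw [sub_eq_add_neg, add_re, neg_re, sub_eq_add_neg]
@[simp] theorem sub_im (a b : Lam K) : (a - b).im = a.im - b.im := by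
  rw [sub_eq_add_neg, add_im, neg_im, sub_eq_add_neg]

theorem isUnit_iff {a : Lam K} : IsUnit a ↔ a.re ≠ 0 := by
  constructor
  · intro h h0
    obtain ⟨b, hb⟩ := h.exists_right_inv
    have := congrArg Lam.re hb
    simp [h0] at this
  · intro h
    refine IsUnit.of_mul_eq_one (⟨a.re⁻¹, -(a.im * a.re⁻¹ * a.re⁻¹)⟩ : Lam K) ?_
    ext
    · simp [h]
    · simp
      field_simp
      ring

/-- constants -/
def C : K →+* Lam K where
  toFun a := ⟨a, 0⟩
  map_one' := rfl
  map_zero' := rfl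
  map_add' a b := by ext <;> simp
  map_mul' a b := by ext <;> simp

/-- constant term -/
def reHom : Lam K →+* K where
  toFun a := a.re
  map_one' := rfl
  map_zero' := rfl
  map_add' a b := rfl
  map_mul' a b := rfl

@[simp] theorem C_re (a : K) : (C a).re = a := rfl
@[simp] theorem C_im (a : K) : (C a).im = 0 := rfl

end Lam

/-- The algebra `Λ⟨x, y⟩/(x², y², yx - e xy)`: the element `a + b x + m y + f xy`. -/
@[ext] structure Alg {K : Type} [Field K] (e : Lam K) where
  a : Lam K
  b : Lam K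
  m : Lam K
  f : Lam K

namespace Alg
variable {K : Type} [Field K] {e : Lam K}

instance : Zero (Alg e) := ⟨⟨0, 0, 0, 0⟩⟩
instance : One (Alg e) := ⟨⟨1, 0, 0, 0⟩⟩
instance : Add (Alg e) := ⟨fun r s => ⟨r.a + s.a, r.b + s.b, r.m + s.m, r.f + s.f⟩⟩
instance : Neg (Alg e) := ⟨fun r => ⟨-r.a, -r.b, -r.m, -r.f⟩⟩
instance : Mul (Alg e) := ⟨fun r s => ⟨r.a * s.a, r.a * s.b + r.b * s.a,
  r.a * s.m + r.m * s.a, r.a * s.f + r.f * s.a + r.b * s.m + e * r.m * s.b⟩⟩

@[simp] theorem zero_a : (0 : Alg e).a = 0 := rfl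
@[simp] theorem zero_b : (0 : Alg e).b = 0 := rfl
@[simp] theorem zero_m : (0 : Alg e).m = 0 := rfl
@[simp] theorem zero_f : (0 : Alg e).f = 0 := rfl
@[simp] theorem one_a : (1 : Alg e).a = 1 := rfl
@[simp] theorem one_b : (1 : Alg e).b = 0 := rfl
@[simp] theorem one_m : (1 : Alg e).m = 0 := rfl
@[simp] theorem one_f : (1 : Alg e).f = 0 := rfl
@[simp] theorem add_a (r s : Alg e) : (r + s).a = r.a + s.a := rfl
@[simp] theorem add_b (r s : Alg e) : (r + s).b = r.b + s.b := rfl
@[simp] theorem add_m (r s : Alg e) : (r + s).m = r.m + s.m := rfl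
@[simp] theorem add_f (r s : Alg e) : (r + s).f = r.f + s.f := rfl
@[simp] theorem neg_a (r : Alg e) : (-r).a = -r.a := rfl
@[simp] theorem neg_b (r : Alg e) : (-r).b = -r.b := rfl
@[simp] theorem neg_m (r : Alg e) : (-r).m = -r.m := rfl
@[simp] theorem neg_f (r : Alg e) : (-r).f = -r.f := rfl
@[simp] theorem mul_a (r s : Alg e) : (r * s).a = r.a * s.a := rfl
@[simp] theorem mul_b (r s : Alg e) : (r * s).b = r.a * s.b + r.b * s.a := rfl
@[simp] theorem mul_m (r s : Alg e) : (r * s).m = r.a * s.m + r.m * s.a := rfl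
@[simp] theorem mul_f (r s : Alg e) :
  (r * s).f = r.a * s.f + r.f * s.a + r.b * s.m + e * r.m * s.b := rfl

instance : Ring (Alg e) :=
  Ring.ofMinimalAxioms
    (fun a b c => by ext1 <;> simp <;> ring)
    (fun a => by ext1 <;> simp)
    (fun a => by ext1 <;> simp)
    (fun a b c => by ext1 <;> simp <;> ring)
    (fun a => by ext1 <;> simp)
    (fun a => by ext1 <;> simp)
    (fun a b c => by ext1 <;> simp <;> ring)
    (fun a b c => by ext1 <;> simp <;> ring)

@[simp] theorem sub_a (r s : Alg e) : (r - s).a = r.a - s.a := by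
  rw [sub_eq_add_neg, add_a, neg_a, sub_eq_add_neg]
@[simp] theorem sub_b (r s : Alg e) : (r - s).b = r.b - s.b := by
  rw [sub_eq_add_neg, add_b, neg_b, sub_eq_add_neg]
@[simp] theorem sub_m (r s : Alg e) : (r - s).m = r.m - s.m := by
  rw [sub_eq_add_neg, add_m, neg_m, sub_eq_add_neg]
@[simp] theorem sub_f (r s : Alg e) : (r - s).f = r.f - s.f := by
  rw [sub_eq_add_neg, add_f, neg_f, sub_eq_add_neg]

/-- the scalars `Λ` -/
def L : Lam K →+* Alg e where
  toFun z := ⟨z, 0, 0, 0⟩
  map_one' := rfl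
  map_zero' := rfl
  map_add' a b := by ext1 <;> simp
  map_mul' a b := by ext1 <;> simp

@[simp] theorem L_a (z : Lam K) : (L z : Alg e).a = z := rfl
@[simp] theorem L_b (z : Lam K) : (L z : Alg e).b = 0 := rfl
@[simp] theorem L_m (z : Lam K) : (L z : Alg e).m = 0 := rfl
@[simp] theorem L_f (z : Lam K) : (L z : Alg e).f = 0 := rfl

/-- The inverse, given the inverse `w` of the scalar part. -/
def invOf (r : Alg e) (w : Lam K) : Alg e :=
  (1 - L w * (r - L r.a) + (L w * (r - L r.a)) * (L w * (r - L r.a))) * L w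

theorem mul_invOf (r : Alg e) (w : Lam K) (h : r.a * w = 1) : r * invOf r w = 1 := by
  have h2 : w * r.a = 1 := by rw [mul_comm]; exact h
  ext1
  · simp [invOf, h]
  · simp only [invOf, mul_b, mul_a, add_a, add_b, sub_a, sub_b, one_a, one_b, L_a, L_b]
    linear_combination (-(r.b * w)) * h
  · simp only [invOf, mul_m, mul_a, add_a, add_m, sub_a, sub_m, one_a, one_m, L_a, L_m]
    linear_combination (-(r.m * w)) * h
  · simp only [invOf, mul_f, mul_m, mul_b, mul_a, add_a, add_b, add_f, add_m, sub_a, sub_b, sub_f, sub_m, one_a, one_b, one_m,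
      one_f, L_a, L_b, L_m, L_f]
    linear_combination (-r.f * w + (r.b * r.m + e * r.m * r.b) * w ^ 2) * h

theorem invOf_mul (r : Alg e) (w : Lam K) (h : r.a * w = 1) : invOf r w * r = 1 := by
  ext1
  · simp [invOf]
    linear_combination h
  · simp only [invOf, mul_b, mul_a, add_a, add_b, sub_a, sub_b, one_a, one_b, L_a, L_b]
    linear_combination (-(r.b * w)) * h
  · simp only [invOf, mul_m, mul_a, add_a, add_m, sub_a, sub_m, one_a, one_m, L_a, L_m]
    linear_combination (-(r.m * w)) * h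
  · simp only [invOf, mul_f, mul_m, mul_b, mul_a, add_a, add_b, add_f, add_m, sub_a, sub_b, sub_f, sub_m, one_a, one_b, one_m,
      one_f, L_a, L_b, L_m, L_f]
    linear_combination (-r.f * w + (r.b * r.m + e * r.m * r.b) * w ^ 2) * h

theorem isUnit_iff {r : Alg e} : IsUnit r ↔ r.a.re ≠ 0 := by
  constructor
  · intro h
    obtain ⟨s, hs⟩ := h.exists_right_inv
    have := congrArg Alg.a hs
    simp only [mul_a, one_a] at this
    exact Lam.isUnit_iff.1 (IsUnit.of_mul_eq_one _ this)
  · intro h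
    obtain ⟨w, hw⟩ := (Lam.isUnit_iff.2 h).exists_right_inv
    exact ⟨⟨r, invOf r w, mul_invOf r w hw, invOf_mul r w hw⟩, rfl⟩

/-- left invertible implies invertible -/
theorem isUnit_of_mul_eq_one {r s : Alg e} (h : r * s = 1) : IsUnit s := by
  have := congrArg Alg.a h
  simp only [mul_a, one_a] at this
  rw [isUnit_iff]
  rw [mul_comm] at this
  exact Lam.isUnit_iff.1 (IsUnit.of_mul_eq_one _ this)

/-- every element is a unit, or becomes one after adding `1`. -/
theorem isUnit_or (r : Alg e) : IsUnit r ∨ IsUnit (r + 1) := by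
  rw [isUnit_iff, isUnit_iff]
  by_cases h : r.a.re = 0
  · right; simp [h]
  · left; exact h

/-- Commutators of units of the algebra are central. -/
theorem comm_central (k l h : (Alg e)ˣ) :
    h * (k * l * k⁻¹ * l⁻¹) = (k * l * k⁻¹ * l⁻¹) * h := by
  have h1 : (k * l * k⁻¹ * l⁻¹) * (l * k) = k * l := by group
  generalize k * l * k⁻¹ * l⁻¹ = c' at h1 ⊢
  have h2 := congrArg Units.val h1
  rw [Units.val_mul, Units.val_mul, Units.val_mul] at h2
  obtain ⟨c, hc⟩ : ∃ c : Alg e, c = (c' : Alg e) := ⟨_, rfl⟩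
  rw [← hc] at h2
  have ua : IsUnit ((l : Alg e) * (k : Alg e)).a := by
    rw [Lam.isUnit_iff]; exact isUnit_iff.1 (l * k).isUnit
  have ha := congrArg Alg.a h2
  have hb := congrArg Alg.b h2
  have hm := congrArg Alg.m h2
  have ca : c.a = 1 := by
    have : (c.a - 1) * ((l : Alg e) * (k : Alg e)).a = 0 := by
      simp only [mul_a] at ha ⊢
      linear_combination ha
    have := (IsUnit.mul_left_eq_zero ua).1 this
    linear_combination this
  have cb : c.b = 0 := by
    refine (IsUnit.mul_left_eq_zero ua).1 ?_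
    simp only [mul_a, mul_b, ca] at hb ⊢
    linear_combination hb
  have cm : c.m = 0 := by
    refine (IsUnit.mul_left_eq_zero ua).1 ?_
    simp only [mul_a, mul_m, ca] at hm ⊢
    linear_combination hm
  ext1
  rw [Units.val_mul, Units.val_mul, ← hc]
  ext1
  · simp [ca]
  · simp [ca, cb]
  · simp [ca, cm]
  · simp [ca, cb, cm]
    ring

end Alg

/-- The group of affine transformations `r ↦ u r + s` of a ring. -/
@[ext] structure Aff (R : Type) [Ring R] where
  s : R
  u : Rˣ

namespace Aff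
variable {R : Type} [Ring R]

instance : One (Aff R) := ⟨⟨0, 1⟩⟩
instance : Mul (Aff R) := ⟨fun g h => ⟨g.s + g.u * h.s, g.u * h.u⟩⟩
instance : Inv (Aff R) := ⟨fun g => ⟨-((g.u⁻¹ : Rˣ) * g.s), g.u⁻¹⟩⟩

@[simp] theorem one_s : (1 : Aff R).s = 0 := rfl
@[simp] theorem one_u : (1 : Aff R).u = 1 := rfl
@[simp] theorem mul_s (g h : Aff R) : (g * h).s = g.s + g.u * h.s := rfl
@[simp] theorem mul_u (g h : Aff R) : (g * h).u = g.u * h.u := rfl
@[simp] theorem inv_s (g : Aff R) : (g⁻¹).s = -((g.u⁻¹ : Rˣ) * g.s) := rfl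
@[simp] theorem inv_u (g : Aff R) : (g⁻¹).u = g.u⁻¹ := rfl

instance : Group (Aff R) :=
  Group.ofLeftAxioms
    (fun a b c => by ext <;> simp [mul_add, add_assoc, mul_assoc])
    (fun a => by ext <;> simp)
    (fun a => by ext <;> simp)

/-- translation by `r`. -/
def tr (r : R) : Aff R := ⟨r, 1⟩
/-- multiplication by `u`. -/
def ml (u : Rˣ) : Aff R := ⟨0, u⟩

@[simp] theorem tr_s (r : R) : (tr r).s = r := rfl
@[simp] theorem tr_u (r : R) : (tr r).u = 1 := rfl
@[simp] theorem ml_s (u : Rˣ) : (ml u).s = 0 := rfl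
@[simp] theorem ml_u (u : Rˣ) : (ml u).u = u := rfl

theorem tr_add (r s : R) : tr (r + s) = tr r * tr s := by ext <;> simp

theorem eq_tr {g : Aff R} (h : g.u = 1) : g = tr g.s := by
  ext
  · simp
  · simp [h]

theorem conj_tr (g : Aff R) (r : R) : g * tr r * g⁻¹ = tr (g.u * r) := by
  ext
  · simp [mul_add, ← mul_assoc]
  · simp

end Aff

end H13.SA
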