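import Mathlib
import Pool.Agent.H13.SA.Ring

set_option autoImplicit false

namespace H13.SA

/-- `g` is a commutator of the form `[h, [k, l]]`. -/
def Deep {G : Type} [Group G] (g : G) : Prop :=
  ∃ h k l : G, g = h * (k * l * k⁻¹ * l⁻¹) * h⁻¹ * (k * l * k⁻¹ * l⁻¹)⁻¹

theorem Deep.map {G H : Type} [Group G] [Group H] (φ : G →* H) {g : G} (h : Deep g) :
    Deep (φ g) := by
  obtain ⟨h, k, l, rfl⟩ := h
  exact ⟨φ h, φ k, φ l, by simp⟩

variable {K : Type} [Field K] [CharZero K] {e : Lam K}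

theorem two_eq : (2 : Alg e) = Alg.L (Lam.C 2) := by
  rw [map_ofNat, map_ofNat]

theorem exists_two : ∃ w : (Alg e)ˣ, (w : Alg e) = 2 := by
  have : IsUnit (2 : Alg e) := by
    rw [Alg.isUnit_iff, two_eq]
    simp
  exact ⟨this.unit, rfl⟩

theorem deep_iff (g : Aff (Alg e)) : Deep g ↔ g.u = 1 := by
  constructor
  · rintro ⟨h, k, l, rfl⟩
    simp only [Aff.mul_u, Aff.inv_u]
    rw [Alg.comm_central, mul_inv_cancel_right, mul_inv_cancel]
  · intro h
    rw [Aff.eq_tr h]
    obtain ⟨w, hw⟩ := exists_two (e := e)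
    have key : ∀ r : Alg e, Aff.ml w * Aff.tr r * (Aff.ml w)⁻¹ * (Aff.tr r)⁻¹ = Aff.tr r := by
      intro r
      rw [Aff.conj_tr]
      ext1
      · simp [hw, two_mul]
      · simp
    refine ⟨Aff.ml w, Aff.ml w, Aff.tr g.s, ?_⟩
    rw [key, key]

theorem u_eq_one_of_comm {g : Aff (Alg e)} (h : ∀ r, g * Aff.tr r = Aff.tr r * g) :
    g.u = 1 := by
  have := congrArg Aff.s (h 1)
  simp only [Aff.mul_s, Aff.tr_s, Aff.tr_u, Units.val_one, one_mul, mul_one] at this
  ext1
  rw [Units.val_one]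
  rw [add_comm] at this
  exact add_right_cancel this

theorem center_trivial : Subgroup.center (Aff (Alg e)) = ⊥ := by
  rw [eq_bot_iff]
  intro g hg
  rw [Subgroup.mem_center_iff] at hg
  have h1 : g.u = 1 := u_eq_one_of_comm (fun r => (hg _).symm)
  obtain ⟨w, hw⟩ := exists_two (e := e)
  have h2 := congrArg Aff.s (hg (Aff.ml w))
  simp only [Aff.mul_s, Aff.ml_s, Aff.ml_u, h1, hw, mul_zero, add_zero, zero_add, two_mul] at h2
  rw [Subgroup.mem_bot]
  ext1
  · have : g.s + g.s = g.s + 0 := by rw [h2, add_zero]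
    simpa using add_left_cancel this
  · simp [h1]

theorem aux_indec {A B : Type} [Group A] [Group B] (ψ : Aff (Alg e) ≃* A × B)
    (i : Alg e) (hi : IsUnit i) (h : (ψ (Aff.tr i)).1 = 1) : Subsingleton A := by
  have hstab : ∀ (u : (Alg e)ˣ) (r : Alg e), (ψ (Aff.tr r)).1 = 1 →
      (ψ (Aff.tr (u * r))).1 = 1 := by
    intro u r hr
    have := Aff.conj_tr (Aff.ml u) r
    rw [Aff.ml_u] at this
    rw [← this, map_mul, map_mul, Prod.fst_mul, Prod.fst_mul, hr, map_inv, Prod.fst_inv]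
    simp
  have hunit : ∀ r : Alg e, IsUnit r → (ψ (Aff.tr r)).1 = 1 := by
    rintro r ⟨v, rfl⟩
    obtain ⟨j, rfl⟩ := hi
    have := hstab (v * j⁻¹) j h
    simpa using this
  have hall : ∀ r : Alg e, (ψ (Aff.tr r)).1 = 1 := by
    intro r
    rcases Alg.isUnit_or r with h1 | h1
    · exact hunit r h1
    · have h2 := hunit _ h1
      rw [Aff.tr_add, map_mul, Prod.fst_mul, hunit 1 isUnit_one, mul_one] at h2
      exact h2
  have htriv : ∀ a : A, a = 1 := by
    intro a
    have hu : (ψ.symm (a, 1)).u = 1 := by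
      apply u_eq_one_of_comm
      intro r
      apply ψ.injective
      rw [map_mul, map_mul, ψ.apply_symm_apply]
      ext
      · simp [hall r]
      · simp
    have h2 := hall (ψ.symm (a, 1)).s
    rw [← Aff.eq_tr hu, ψ.apply_symm_apply] at h2
    exact h2
  exact ⟨fun a b => by rw [htriv a, htriv b]⟩

theorem indecomposable {A B : Type} [Group A] [Group B] (ψ : Aff (Alg e) ≃* A × B) :
    Subsingleton A ∨ Subsingleton B := by
  have hd : Deep (ψ (Aff.tr 1)) := ((deep_iff _).2 rfl).map (ψ : Aff (Alg e) →* A × B)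
  have hd1 : Deep ((ψ (Aff.tr 1)).1) := hd.map (MonoidHom.fst A B)
  have hd2 : Deep ((ψ (Aff.tr 1)).2) := hd.map (MonoidHom.snd A B)
  have h1 := (deep_iff _).1 ((hd1.map (MonoidHom.inl A B)).map (ψ.symm : A × B →* Aff (Alg e)))
  have h2 := (deep_iff _).1 ((hd2.map (MonoidHom.inr A B)).map (ψ.symm : A × B →* Aff (Alg e)))
  set g1 := (ψ.symm : A × B →* Aff (Alg e)) ((MonoidHom.inl A B) (ψ (Aff.tr 1)).1) with hg1
  set g2 := (ψ.symm : A × B →* Aff (Alg e)) ((MonoidHom.inr A B) (ψ (Aff.tr 1)).2) with hg2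
  have hs : g1 * g2 = Aff.tr 1 := by
    rw [hg1, hg2, ← map_mul]
    apply ψ.injective
    simp
  have hsum : g1.s + g2.s = 1 := by
    have := congrArg Aff.s hs
    simpa [h1] using this
  have hre : g1.s.a.re + g2.s.a.re = 1 := by
    have := congrArg (fun r : Alg e => r.a.re) hsum
    simpa using this
  have e1 : ψ (Aff.tr g1.s) = ((ψ (Aff.tr 1)).1, 1) := by
    rw [← Aff.eq_tr h1, hg1]
    simp
  have e2 : ψ (Aff.tr g2.s) = (1, (ψ (Aff.tr 1)).2) := by
    rw [← Aff.eq_tr h2, hg2]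
    simp
  by_cases h0 : g2.s.a.re = 0
  · right
    have hu : IsUnit g1.s := by
      rw [Alg.isUnit_iff]
      rw [h0, add_zero] at hre
      rw [hre]; exact one_ne_zero
    refine aux_indec (ψ.trans MulEquiv.prodComm) g1.s hu ?_
    simp [e1]
  · left
    refine aux_indec ψ g2.s (Alg.isUnit_iff.2 h0) ?_
    rw [e2]

/-- Ring isomorphisms induce isomorphisms of the affine groups. -/
def affEquiv {R S : Type} [Ring R] [Ring S] (f : R ≃+* S) : Aff R ≃* Aff S where
  toFun g := ⟨f g.s, Units.mapEquiv f.toMulEquiv g.u⟩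
  invFun g := ⟨f.symm g.s, Units.mapEquiv f.symm.toMulEquiv g.u⟩
  left_inv g := by ext <;> simp
  right_inv g := by ext <;> simp
  map_mul' g h := by ext <;> simp

/-- A ring automorphism of `Λ` maps `Alg e` to `Alg (θ e)`. -/
def algEquiv {K : Type} [Field K] (θ : Lam K ≃+* Lam K) (e e' : Lam K) (h : θ e = e') :
    Alg e ≃+* Alg e' where
  toFun r := ⟨θ r.a, θ r.b, θ r.m, θ r.f⟩
  invFun r := ⟨θ.symm r.a, θ.symm r.b, θ.symm r.m, θ.symm r.f⟩
  left_inv r := by ext1 <;> simp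
  right_inv r := by ext1 <;> simp
  map_add' r s := by ext1 <;> simp
  map_mul' r s := by subst h; ext1 <;> simp

end H13.SA
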