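import Mathlib
import Pool.Agent.H13.SA.Grp

set_option autoImplicit false

namespace H13.SA

attribute [local instance] FractionRing.liftAlgebra

theorem formallySmooth_aux (K : Type) [Field K] [CharZero K] (R : Type) [CommRing R] [IsDomain R]
    [Algebra R K] [FaithfulSMul R K] : Algebra.FormallySmooth R K := by
  have : CharZero (FractionRing R) := (algebraMap (FractionRing R) K).charZero
  have h1 : Algebra.FormallySmooth R (FractionRing R) :=
    Algebra.FormallySmooth.of_isLocalization (nonZeroDivisors R)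
  have h2 : Algebra.FormallySmooth (FractionRing R) K := by
    obtain ⟨s, hs⟩ := exists_isTranscendenceBasis (FractionRing R) K
    have h3 := hs.isAlgebraic_field
    exact Algebra.FormallySmooth.of_algebraicIndependent_of_isSeparable hs.1
  exact Algebra.FormallySmooth.comp R (FractionRing R) K

open Polynomial in
theorem exists_rho (K : Type) [Field K] [CharZero K] (c : K) (hc : Transcendental ℚ c) :
    ∃ ρ : K →+* Lam K, (∀ a, (ρ a).re = a) ∧ ρ c = ⟨c, 1⟩ := by
  let i1 : ℚ[X] →+* K := (aeval c : ℚ[X] →ₐ[ℚ] K).toRingHom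
  have hi1 : Function.Injective i1 := transcendental_iff_injective.1 hc
  let _ : Algebra ℚ[X] K := i1.toAlgebra
  have : FaithfulSMul ℚ[X] K := by
    rw [faithfulSMul_iff_algebraMap_injective]
    exact hi1
  have hsm := formallySmooth_aux K ℚ[X]
  let j : ℚ →+* Lam K := Lam.C.comp (algebraMap ℚ K)
  let i2 : ℚ[X] →+* Lam K := eval₂RingHom j ⟨c, 1⟩
  let _ : Algebra ℚ[X] (Lam K) := i2.toAlgebra
  have hcomp : Lam.reHom.comp i2 = i1 := by
    apply Polynomial.ringHom_ext
    · intro a
      simp [i1, i2, j, Lam.reHom]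
    · simp [i1, i2, Lam.reHom]
  let g : Lam K →ₐ[ℚ[X]] K := { Lam.reHom with commutes' := fun r => RingHom.congr_fun hcomp r }
  have hg : Function.Surjective g := fun a => ⟨⟨a, 0⟩, rfl⟩
  have hker : IsNilpotent (RingHom.ker (g : Lam K →+* K)) := by
    refine ⟨2, ?_⟩
    rw [pow_two, Ideal.zero_eq_bot, eq_bot_iff, Ideal.mul_le]
    intro r hr s hs
    rw [RingHom.mem_ker] at hr hs
    have hr' : r.re = 0 := hr
    have hs' : s.re = 0 := hs
    rw [Ideal.mem_bot]
    ext <;> simp [hr', hs']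
  let ρ := Algebra.FormallySmooth.liftOfSurjective (AlgHom.id ℚ[X] K) g hg hker
  refine ⟨ρ, fun a => ?_, ?_⟩
  · exact Algebra.FormallySmooth.liftOfSurjective_apply (AlgHom.id ℚ[X] K) g hg hker a
  · have h1 : algebraMap ℚ[X] K X = c := by
      change i1 X = c
      simp [i1]
    have h2 : algebraMap ℚ[X] (Lam K) X = ⟨c, 1⟩ := by
      change i2 X = ⟨c, 1⟩
      simp [i2]
    have h3 := ρ.commutes X
    rw [h1, h2] at h3
    exact h3

theorem exists_theta (K : Type) [Field K] [CharZero K] (c : K) (hc : Transcendental ℚ c) :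
    ∃ θ : Lam K ≃+* Lam K, θ ⟨c, 0⟩ = ⟨c, 1⟩ := by
  obtain ⟨ρ, h1, h2⟩ := exists_rho K c hc
  refine ⟨{ toFun := fun z => ρ z.re + ⟨0, z.im⟩
            invFun := fun z => ⟨z.re, z.im - (ρ z.re).im⟩
            left_inv := fun z => by ext <;> simp [h1]
            right_inv := fun z => by ext <;> simp [h1]
            map_add' := fun z w => by ext <;> simp [h1]; ring
            map_mul' := fun z w => by ext <;> simp [h1]; ring }, ?_⟩
  change ρ c + ⟨0, 0⟩ = ⟨c, 1⟩
  rw [h2]
  ext <;> simp

theorem exists_iso (K : Type) [Field K] [CharZero K] (c : K) (hc : Transcendental ℚ c) :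
    Nonempty (Alg (⟨c, 0⟩ : Lam K) ≃+* Alg (⟨c, 1⟩ : Lam K)) := by
  obtain ⟨θ, hθ⟩ := exists_theta K c hc
  exact ⟨algEquiv θ _ _ hθ⟩

theorem exists_transcendental_complex : ∃ c : ℂ, Transcendental ℚ c := by
  refine ⟨((liouvilleNumber 2 : ℝ) : ℂ), ?_⟩
  have h1 : Transcendental ℤ (liouvilleNumber 2) := by
    have := transcendental_liouvilleNumber (m := 2) le_rfl
    simpa using this
  intro h2
  apply h1
  have h3 : IsAlgebraic ℚ (liouvilleNumber 2 : ℝ) :=
    (isAlgebraic_algebraMap_iff (algebraMap ℝ ℂ).injective).1 h2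
  exact (IsFractionRing.isAlgebraic_iff ℤ ℚ ℝ).2 h3

end H13.SA
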