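import Mathlib
import Pool.Agent.H13.SA.Grp
import Pool.Agent.Results.MP_83c24b_al.Defs

set_option autoImplicit false

namespace H13.SA

open MvPolynomial Pool.Agent.Results.MP_83c24b_al

section poly
variable {K : Type} [Field K] {κ : Type}

/-- polynomial function -/
def IsP (f : (κ → K) → K) : Prop := ∃ p : MvPolynomial κ K, ∀ v, f v = eval v p

theorem IsP.const (c : K) : IsP (fun _ : κ → K => c) := ⟨MvPolynomial.C c, by simp⟩
theorem IsP.coord (i : κ) : IsP (fun v : κ → K => v i) := ⟨X i, by simp⟩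
theorem IsP.add {f g : (κ → K) → K} (hf : IsP f) (hg : IsP g) : IsP (fun v => f v + g v) := by
  obtain ⟨p, hp⟩ := hf; obtain ⟨q, hq⟩ := hg
  exact ⟨p + q, fun v => by simp [hp, hq]⟩
theorem IsP.mul {f g : (κ → K) → K} (hf : IsP f) (hg : IsP g) : IsP (fun v => f v * g v) := by
  obtain ⟨p, hp⟩ := hf; obtain ⟨q, hq⟩ := hg
  exact ⟨p * q, fun v => by simp [hp, hq]⟩
theorem IsP.neg {f : (κ → K) → K} (hf : IsP f) : IsP (fun v => - f v) := by
  obtain ⟨p, hp⟩ := hf
  exact ⟨-p, fun v => by simp [hp]⟩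

/-- polynomial function with values in `Λ` -/
def IsPL (f : (κ → K) → Lam K) : Prop := IsP (fun v => (f v).re) ∧ IsP (fun v => (f v).im)

theorem IsPL.const (c : Lam K) : IsPL (fun _ : κ → K => c) := ⟨IsP.const _, IsP.const _⟩
theorem IsPL.add {f g : (κ → K) → Lam K} (hf : IsPL f) (hg : IsPL g) :
    IsPL (fun v => f v + g v) := ⟨hf.1.add hg.1, hf.2.add hg.2⟩
theorem IsPL.mul {f g : (κ → K) → Lam K} (hf : IsPL f) (hg : IsPL g) :
    IsPL (fun v => f v * g v) :=
  ⟨hf.1.mul hg.1, (hf.1.mul hg.2).add (hf.2.mul hg.1)⟩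
theorem IsPL.neg {f : (κ → K) → Lam K} (hf : IsPL f) : IsPL (fun v => - f v) :=
  ⟨hf.1.neg, hf.2.neg⟩

variable {e : Lam K}

/-- polynomial function with values in `Alg e` -/
def IsPA (f : (κ → K) → Alg e) : Prop :=
  IsPL (fun v => (f v).a) ∧ IsPL (fun v => (f v).b) ∧ IsPL (fun v => (f v).m) ∧
    IsPL (fun v => (f v).f)

theorem IsPA.const (c : Alg e) : IsPA (fun _ : κ → K => c) :=
  ⟨IsPL.const _, IsPL.const _, IsPL.const _, IsPL.const _⟩
theorem IsPA.add {f g : (κ → K) → Alg e} (hf : IsPA f) (hg : IsPA g) :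
    IsPA (fun v => f v + g v) :=
  ⟨hf.1.add hg.1, hf.2.1.add hg.2.1, hf.2.2.1.add hg.2.2.1, hf.2.2.2.add hg.2.2.2⟩
theorem IsPA.neg {f : (κ → K) → Alg e} (hf : IsPA f) : IsPA (fun v => - f v) :=
  ⟨hf.1.neg, hf.2.1.neg, hf.2.2.1.neg, hf.2.2.2.neg⟩
theorem IsPA.sub {f g : (κ → K) → Alg e} (hf : IsPA f) (hg : IsPA g) :
    IsPA (fun v => f v - g v) := by
  have := hf.add hg.neg
  simpa only [← sub_eq_add_neg] using this
theorem IsPA.mul {f g : (κ → K) → Alg e} (hf : IsPA f) (hg : IsPA g) :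
    IsPA (fun v => f v * g v) :=
  ⟨hf.1.mul hg.1, (hf.1.mul hg.2.1).add (hf.2.1.mul hg.1),
    (hf.1.mul hg.2.2.1).add (hf.2.2.1.mul hg.1),
    (((hf.1.mul hg.2.2.2).add (hf.2.2.2.mul hg.1)).add (hf.2.1.mul hg.2.2.1)).add
      (((IsPL.const e).mul hf.2.2.1).mul hg.2.1)⟩
theorem IsPA.L {f : (κ → K) → Lam K} (hf : IsPL f) : IsPA (fun v => (Alg.L (f v) : Alg e)) :=
  ⟨hf, IsPL.const _, IsPL.const _, IsPL.const _⟩
theorem IsPA.invOf {f : (κ → K) → Alg e} {w : (κ → K) → Lam K} (hf : IsPA f) (hw : IsPL w) :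
    IsPA (fun v => Alg.invOf (f v) (w v)) := by
  unfold Alg.invOf
  have h1 : IsPA (fun v => Alg.L (w v) * (f v - Alg.L (f v).a)) :=
    (IsPA.L hw).mul (hf.sub (IsPA.L hf.1))
  exact (((IsPA.const 1).sub h1).add (h1.mul h1)).mul (IsPA.L hw)

/-- coordinates of an element of the algebra -/
def co (r : Alg e) : Fin 8 → K := ![r.a.re, r.a.im, r.b.re, r.b.im, r.m.re, r.m.im, r.f.re, r.f.im]
/-- element with given coordinates -/
def ofco (e : Lam K) (v : Fin 8 → K) : Alg e := ⟨⟨v 0, v 1⟩, ⟨v 2, v 3⟩, ⟨v 4, v 5⟩, ⟨v 6, v 7⟩⟩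

theorem ofco_co (r : Alg e) : ofco e (co r) = r := rfl
theorem co_ofco (v : Fin 8 → K) : co (ofco e v) = v := by
  funext i
  fin_cases i <;> rfl

theorem IsPA.co {f : (κ → K) → Alg e} (hf : IsPA f) (i : Fin 8) : IsP (fun v => co (f v) i) := by
  fin_cases i
  exacts [hf.1.1, hf.1.2, hf.2.1.1, hf.2.1.2, hf.2.2.1.1, hf.2.2.1.2, hf.2.2.2.1, hf.2.2.2.2]

theorem IsPA.ofco {g : Fin 8 → κ} : IsPA (fun v : κ → K => ofco e (fun i => v (g i))) :=
  ⟨⟨IsP.coord _, IsP.coord _⟩, ⟨IsP.coord _, IsP.coord _⟩, ⟨IsP.coord _, IsP.coord _⟩,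
    ⟨IsP.coord _, IsP.coord _⟩⟩

end poly

section variety
variable {K : Type} [Field K]

/-- coordinates of the group: translation part, linear part, inverse of the leading entry -/
abbrev Idx := Fin 8 ⊕ (Fin 8 ⊕ Unit)

/-- the points -/
def pts (K : Type) [Field K] : Set (Idx → K) :=
  {v | v (Sum.inr (Sum.inl 0)) * v (Sum.inr (Sum.inr ())) = 1}

/-- a unit from its coordinates -/
def mkUnit {e : Lam K} (r : Alg e) (d : K) (h : r.a.re * d = 1) : (Alg e)ˣ where
  val := r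
  inv := Alg.invOf r ⟨d, -(r.a.im * d * d)⟩
  val_inv := Alg.mul_invOf _ _ (by
    ext
    · simp [h]
    · simp
      linear_combination (-(r.a.im * d)) * h)
  inv_val := Alg.invOf_mul _ _ (by
    ext
    · simp [h]
    · simp
      linear_combination (-(r.a.im * d)) * h)

theorem unit_re_ne {e : Lam K} (u : (Alg e)ˣ) : (u : Alg e).a.re ≠ 0 := Alg.isUnit_iff.1 u.isUnit

/-- points and affine maps -/
def ptsEquiv (e : Lam K) : pts K ≃ Aff (Alg e) where
  toFun v := ⟨ofco e (fun i => v.1 (Sum.inl i)),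
    mkUnit (ofco e (fun i => v.1 (Sum.inr (Sum.inl i)))) (v.1 (Sum.inr (Sum.inr ()))) v.2⟩
  invFun g := ⟨Sum.elim (co g.s) (Sum.elim (co (g.u : Alg e)) (fun _ => ((g.u : Alg e).a.re)⁻¹)),
    mul_inv_cancel₀ (unit_re_ne g.u)⟩
  left_inv v := by
    apply Subtype.ext
    funext i
    rcases i with i | i | i
    · exact congrFun (co_ofco _) i
    · exact congrFun (co_ofco _) i
    · change (v.1 (Sum.inr (Sum.inl 0)))⁻¹ = v.1 (Sum.inr (Sum.inr i))
      exact inv_eq_of_mul_eq_one_right v.2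
  right_inv g := by
    ext1
    · rfl
    · ext1
      rfl


theorem pts_d {v : Idx → K} (hv : v ∈ pts K) :
    v (Sum.inr (Sum.inr ())) = (v (Sum.inr (Sum.inl 0)))⁻¹ :=
  (inv_eq_of_mul_eq_one_right hv).symm

/-- The algebraic group of affine transformations of `Alg e`. -/
noncomputable def grpOf (e : Lam K) : AlgGroup K where
  ι := Idx
  fin := inferInstance
  carrier := pts K
  closed := by
    refine ⟨{X (Sum.inr (Sum.inl 0)) * X (Sum.inr (Sum.inr ())) - 1}, ?_⟩
    ext v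
    simp [pts, sub_eq_zero]
  grp := (ptsEquiv e).group
  mul_poly := by
    let _ : Group (pts K) := (ptsEquiv e).group
    have key : ∀ i : Idx, ∃ p : MvPolynomial (Idx ⊕ Idx) K, ∀ (g h : pts K),
        (g * h).1 i = eval (Sum.elim g.1 h.1) p := by
      have hs1 : IsPA (fun v : Idx ⊕ Idx → K => ofco e (fun i => v (Sum.inl (Sum.inl i)))) :=
        IsPA.ofco
      have hs2 : IsPA (fun v : Idx ⊕ Idx → K => ofco e (fun i => v (Sum.inr (Sum.inl i)))) :=
        IsPA.ofco
      have hu1 : IsPA (fun v : Idx ⊕ Idx → K =>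
        ofco e (fun i => v (Sum.inl (Sum.inr (Sum.inl i))))) := IsPA.ofco
      have hu2 : IsPA (fun v : Idx ⊕ Idx → K =>
        ofco e (fun i => v (Sum.inr (Sum.inr (Sum.inl i))))) := IsPA.ofco
      rintro (i | i | i)
      · obtain ⟨p, hp⟩ := (hs1.add (hu1.mul hs2)).co i
        exact ⟨p, fun g h => hp (Sum.elim g.1 h.1)⟩
      · obtain ⟨p, hp⟩ := (hu1.mul hu2).co i
        exact ⟨p, fun g h => hp (Sum.elim g.1 h.1)⟩
      · refine ⟨X (Sum.inl (Sum.inr (Sum.inr ()))) * X (Sum.inr (Sum.inr (Sum.inr ()))), ?_⟩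
        intro g h
        simp only [map_mul, eval_X, Sum.elim_inl, Sum.elim_inr]
        rw [pts_d g.2, pts_d h.2, ← mul_inv]
        rfl
    choose P hP using key
    exact ⟨P, fun g h i => hP i g h⟩
  inv_poly := by
    let _ : Group (pts K) := (ptsEquiv e).group
    have key : ∀ i : Idx, ∃ p : MvPolynomial Idx K, ∀ (g : pts K),
        (g⁻¹).1 i = eval g.1 p := by
      have hs : IsPA (fun v : Idx → K => ofco e (fun i => v (Sum.inl i))) :=
        IsPA.ofco
      have hu : IsPA (fun v : Idx → K =>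
        ofco e (fun i => v (Sum.inr (Sum.inl i)))) := IsPA.ofco
      have hd : IsPL (fun v : Idx → K => (⟨v (Sum.inr (Sum.inr ())),
          -((ofco e (fun i => v (Sum.inr (Sum.inl i)))).a.im * v (Sum.inr (Sum.inr ())) *
            v (Sum.inr (Sum.inr ())))⟩ : Lam K)) :=
        ⟨IsP.coord _, ((hu.1.2.mul (IsP.coord _)).mul (IsP.coord _)).neg⟩
      have hinv := hu.invOf hd
      rintro (i | i | i)
      · obtain ⟨p, hp⟩ := ((hinv.mul hs).neg).co i
        exact ⟨p, fun g => hp g.1⟩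
      · obtain ⟨p, hp⟩ := hinv.co i
        exact ⟨p, fun g => hp g.1⟩
      · refine ⟨X (Sum.inr (Sum.inl 0)), ?_⟩
        intro g
        rw [eval_X]
        have h1 : (g⁻¹).1 (Sum.inr (Sum.inr i)) =
          (((((ptsEquiv e g).u)⁻¹ : (Alg e)ˣ) : Alg e).a.re)⁻¹ := rfl
        rw [h1]
        have h2 := congrArg (fun r : Alg e => r.a.re) (ptsEquiv e g).u.inv_mul
        simp only [Alg.mul_a, Lam.mul_re, Alg.one_a, Lam.one_re] at h2
        exact inv_eq_of_mul_eq_one_right h2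
    choose P hP using key
    exact ⟨P, fun g i => hP i g⟩

/-- the points of `grpOf e` are the affine maps -/
noncomputable def ptsMul (e : Lam K) : (grpOf e).carrier ≃* Aff (Alg e) :=
  letI : Group (pts K) := (ptsEquiv e).group
  { ptsEquiv e with
    map_mul' := fun _ _ => (ptsEquiv e).apply_symm_apply _ }

theorem grpOf_centre [CharZero K] (e : Lam K) : (grpOf e).TrivialCentre := by
  unfold AlgGroup.TrivialCentre
  rw [eq_bot_iff]
  intro g hg
  rw [Subgroup.mem_center_iff] at hg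
  have h1 : ptsMul e g ∈ Subgroup.center (Aff (Alg e)) := by
    rw [Subgroup.mem_center_iff]
    intro h
    have := congrArg (ptsMul e) (hg ((ptsMul e).symm h))
    simpa using this
  rw [center_trivial, Subgroup.mem_bot] at h1
  rw [Subgroup.mem_bot]
  exact (map_eq_one_iff (ptsMul e) (ptsMul e).injective).1 h1

theorem grpOf_indec [CharZero K] (e : Lam K) : (grpOf e).AbstractlyIndecomposable := by
  constructor
  · have : Nontrivial (Aff (Alg e)) := by
      refine ⟨Aff.tr 1, 1, fun h => ?_⟩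
      have := congrArg (fun g : Aff (Alg e) => g.s.a.re) h
      simp at this
    exact (ptsMul e).toEquiv.nontrivial
  · rintro A B _ _ ⟨ψ⟩
    exact indecomposable ((ptsMul e).symm.trans ψ)

/-- the point with given `(s, u)` coordinates -/
def pt (w : Fin 8 ⊕ Fin 8 → K) : Idx → K :=
  Sum.elim (fun i => w (Sum.inl i))
    (Sum.elim (fun i => w (Sum.inr i)) (fun _ => (w (Sum.inr 0))⁻¹))

theorem clear_denom (p : MvPolynomial Idx K) :
    ∃ (N : ℕ) (P : MvPolynomial (Fin 8 ⊕ Fin 8) K), ∀ w : Fin 8 ⊕ Fin 8 → K, w (Sum.inr 0) ≠ 0 →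
      eval w P = w (Sum.inr 0) ^ N * eval (pt w) p := by
  induction p using MvPolynomial.induction_on with
  | C a => exact ⟨0, MvPolynomial.C a, by simp⟩
  | add p q hp hq =>
    obtain ⟨N, P, hP⟩ := hp
    obtain ⟨M, Q, hQ⟩ := hq
    refine ⟨N + M, X (Sum.inr 0) ^ M * P + X (Sum.inr 0) ^ N * Q, fun w hw => ?_⟩
    simp only [map_add, map_mul, map_pow, eval_X, hP w hw, hQ w hw]
    ring
  | mul_X p i hp =>
    obtain ⟨N, P, hP⟩ := hp
    rcases i with i | i | i
    · refine ⟨N, P * X (Sum.inl i), fun w hw => ?_⟩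
      simp only [map_mul, eval_X, hP w hw, pt, Sum.elim_inl]
      ring
    · refine ⟨N, P * X (Sum.inr i), fun w hw => ?_⟩
      simp only [map_mul, eval_X, hP w hw, pt, Sum.elim_inl, Sum.elim_inr]
      ring
    · refine ⟨N + 1, P, fun w hw => ?_⟩
      simp only [map_mul, eval_X, hP w hw]
      rw [show pt w (Sum.inr (Sum.inr i)) = (w (Sum.inr 0))⁻¹ from rfl, pow_succ]
      field_simp

theorem grpOf_irred [CharZero K] (e : Lam K) : (grpOf e).IsIrreducible := by
  intro (p : MvPolynomial Idx K) (q : MvPolynomial Idx K) hpq'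
  have hpq : ∀ g ∈ pts K, eval g p * eval g q = 0 := hpq'
  change (∀ g ∈ pts K, eval g p = 0) ∨ (∀ g ∈ pts K, eval g q = 0)
  have pt_mem : ∀ w : Fin 8 ⊕ Fin 8 → K, w (Sum.inr 0) ≠ 0 → pt w ∈ pts K :=
    fun w hw => mul_inv_cancel₀ hw
  have pt_surj : ∀ g ∈ pts K, ∃ w : Fin 8 ⊕ Fin 8 → K, w (Sum.inr 0) ≠ 0 ∧
      g = pt w := by
    intro g hg
    refine ⟨Sum.elim (fun i => g (Sum.inl i)) (fun i => g (Sum.inr (Sum.inl i))), ?_, ?_⟩
    · exact left_ne_zero_of_mul_eq_one hg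
    · funext i
      rcases i with i | i | i
      · rfl
      · rfl
      · exact pts_d hg
  obtain ⟨N, P, hP⟩ := clear_denom p
  obtain ⟨M, Q, hQ⟩ := clear_denom q
  have h0 : P * Q * X (Sum.inr 0) = 0 := by
    apply MvPolynomial.funext
    intro w
    simp only [map_mul, eval_X, map_zero]
    by_cases hw : w (Sum.inr 0) = 0
    · rw [hw, mul_zero]
    · rw [hP w hw, hQ w hw]
      have := hpq (pt w) (pt_mem w hw)
      linear_combination (w (Sum.inr 0) ^ N * w (Sum.inr 0) ^ M * w (Sum.inr 0)) * this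
  rcases mul_eq_zero.1 h0 with h1 | h1
  · rcases mul_eq_zero.1 h1 with h2 | h2
    · left
      intro g hg
      obtain ⟨w, hw, rfl⟩ := pt_surj g hg
      have := hP w hw
      rw [h2, map_zero] at this
      exact (mul_eq_zero.1 this.symm).resolve_left (pow_ne_zero _ hw)
    · right
      intro g hg
      obtain ⟨w, hw, rfl⟩ := pt_surj g hg
      have := hQ w hw
      rw [h2, map_zero] at this
      exact (mul_eq_zero.1 this.symm).resolve_left (pow_ne_zero _ hw)
  · exact absurd h1 (MvPolynomial.X_ne_zero _)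

end variety

end H13.SA
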