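import Mathlib
import Pool.Agent.H13.SA.Var

set_option autoImplicit false

namespace H13.SA

open MvPolynomial Pool.Agent.Results.MP_83c24b_al

variable {K : Type} [Field K]

theorem Lam.mul_eq_zero_of_re {a b : Lam K} (ha : a.re = 0) (hb : b.re = 0) : a * b = 0 := by
  ext <;> simp [ha, hb]

theorem Lam.eq_zero_of_unit {a b : Lam K} (ha : a.re ≠ 0) (h : a * b = 0) : b = 0 :=
  (IsUnit.mul_right_eq_zero (Lam.isUnit_iff.2 ha)).1 h

theorem no_ring_iso [CharZero K] (c : K) (hc1 : c ≠ 1) (hc2 : 1 + c ≠ 0) (σ : K → K)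
    (e : Lam K) (ere : e.re = c) (eim : e.im = 1)
    (ψ : Alg (⟨c, 0⟩ : Lam K) → Alg e)
    (hadd : ∀ r s, ψ (r + s) = ψ r + ψ s) (hmul : ∀ r s, ψ (r * s) = ψ r * ψ s)
    (hinj : ∀ r, ψ r = 0 → r = 0) (hsurj : Function.Surjective ψ)
    (hK : ∀ (l : K) (r : Alg (⟨c, 0⟩ : Lam K)),
      ψ (Alg.L (Lam.C l) * r) = Alg.L (Lam.C (σ l)) * ψ r) : False := by
  have h0 : ψ 0 = 0 := by
    have := hadd 0 0
    rw [add_zero] at this
    exact left_eq_add.1 this
  obtain ⟨x, hx⟩ : ∃ x : Alg (⟨c, 0⟩ : Lam K), x = ⟨0, 1, 0, 0⟩ := ⟨_, rfl⟩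
  obtain ⟨y, hy⟩ : ∃ y : Alg (⟨c, 0⟩ : Lam K), y = ⟨0, 0, 1, 0⟩ := ⟨_, rfl⟩
  obtain ⟨t, ht⟩ : ∃ t : Alg (⟨c, 0⟩ : Lam K), t = ⟨⟨0, 1⟩, 0, 0, 0⟩ := ⟨_, rfl⟩
  have xx : x * x = 0 := by rw [hx]; ext1 <;> simp
  have yy : y * y = 0 := by rw [hy]; ext1 <;> simp
  have yx : y * x = Alg.L (Lam.C c) * (x * y) := by
    rw [hx, hy]; ext1 <;> simp
    rfl
  have tt : t * t = 0 := by
    rw [ht]; ext1 <;> simp
    ext <;> simp
  have tc : ∀ r, t * r = r * t := by
    intro r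
    rw [ht]; ext1 <;> simp <;> ring
  have txy : t * (x * y) ≠ 0 := by
    intro h
    rw [ht, hx, hy] at h
    have := congrArg (fun r : Alg (⟨c, 0⟩ : Lam K) => r.f.im) h
    simp at this
  obtain ⟨X, hX⟩ : ∃ X, X = ψ x := ⟨_, rfl⟩
  obtain ⟨Y, hY⟩ : ∃ Y, Y = ψ y := ⟨_, rfl⟩
  obtain ⟨T, hT⟩ : ∃ T, T = ψ t := ⟨_, rfl⟩
  have XX : X * X = 0 := by rw [hX, ← hmul, xx, h0]
  have YY : Y * Y = 0 := by rw [hY, ← hmul, yy, h0]
  have YX : Y * X = Alg.L (Lam.C (σ c)) * (X * Y) := by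
    rw [hX, hY, ← hmul, ← hmul, yx, hK]
  have TT : T * T = 0 := by rw [hT, ← hmul, tt, h0]
  have Tc : ∀ r, T * r = r * T := by
    intro r
    obtain ⟨s, rfl⟩ := hsurj r
    rw [hT, ← hmul, ← hmul, tc]
  have TXY : T * (X * Y) ≠ 0 := by
    rw [hT, hX, hY, ← hmul, ← hmul]
    exact fun h => txy (hinj _ h)
  clear hX hY hT
  have e1 : (e - 1).re ≠ 0 := by simp [ere, sub_ne_zero, hc1]
  have e2 : (1 + e).re ≠ 0 := by simpa [ere] using hc2
  have two : (2 : Lam K) = Lam.C 2 := by rw [map_ofNat]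
  have two' : (2 : Lam K).re ≠ 0 := by rw [two]; simp
  -- `T`
  have Tre : T.a.re = 0 := by
    have := congrArg (fun r : Alg e => r.a.re) TT
    simpa using this
  have Tm : T.m = 0 := by
    have := congrArg Alg.f (Tc ⟨0, 1, 0, 0⟩)
    simp only [Alg.mul_f] at this
    refine Lam.eq_zero_of_unit e1 ?_
    linear_combination this
  have Tb : T.b = 0 := by
    have := congrArg Alg.f (Tc ⟨0, 0, 1, 0⟩)
    simp only [Alg.mul_f] at this
    refine Lam.eq_zero_of_unit e1 ?_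
    linear_combination (-1 : Lam K) * this
  have Xre : X.a.re = 0 := by
    have := congrArg (fun r : Alg e => r.a.re) XX
    simpa using this
  have Yre : Y.a.re = 0 := by
    have := congrArg (fun r : Alg e => r.a.re) YY
    simpa using this
  have Xb : X.a * X.b = 0 := by
    have := congrArg Alg.b XX
    simp only [Alg.mul_b, Alg.zero_b] at this
    refine Lam.eq_zero_of_unit two' ?_
    linear_combination this
  have Xm : X.a * X.m = 0 := by
    have := congrArg Alg.m XX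
    simp only [Alg.mul_m, Alg.zero_m] at this
    refine Lam.eq_zero_of_unit two' ?_
    linear_combination this
  have Yb : Y.a * Y.b = 0 := by
    have := congrArg Alg.b YY
    simp only [Alg.mul_b, Alg.zero_b] at this
    refine Lam.eq_zero_of_unit two' ?_
    linear_combination this
  have Ym : Y.a * Y.m = 0 := by
    have := congrArg Alg.m YY
    simp only [Alg.mul_m, Alg.zero_m] at this
    refine Lam.eq_zero_of_unit two' ?_
    linear_combination this
  have Xf := congrArg Alg.f XX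
  have Yf := congrArg Alg.f YY
  have YXf := congrArg Alg.f YX
  simp only [Alg.mul_f, Alg.mul_a, Alg.mul_b, Alg.mul_m, Alg.zero_f, Alg.L_a, Alg.L_b, Alg.L_m,
    Alg.L_f] at Xf Yf YXf
  have main : X.b.re * Y.m.re + c * X.m.re * Y.b.re ≠ 0 := by
    intro h
    apply TXY
    have hXY : X.a * Y.a = 0 := Lam.mul_eq_zero_of_re Xre Yre
    have hTX : T.a * X.a = 0 := Lam.mul_eq_zero_of_re Tre Xre
    have hTY : T.a * Y.a = 0 := Lam.mul_eq_zero_of_re Tre Yre
    have hTf : T.a * (X.b * Y.m + e * X.m * Y.b) = 0 := by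
      apply Lam.mul_eq_zero_of_re Tre
      simp [ere, h]
    ext1
    · simp only [Alg.mul_a, Alg.zero_a]
      rw [hXY, mul_zero]
    · simp only [Alg.mul_a, Alg.mul_b, Alg.zero_b]
      linear_combination Y.b * hTX + X.b * hTY + T.b * hXY
    · simp only [Alg.mul_a, Alg.mul_m, Alg.zero_m]
      linear_combination Y.m * hTX + X.m * hTY + T.m * hXY
    · simp only [Alg.mul_a, Alg.mul_b, Alg.mul_m, Alg.mul_f, Alg.zero_f, Tm, Tb]
      linear_combination Y.f * hTX + X.f * hTY + T.f * hXY + hTf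
  have cases2 : (X.b.re ≠ 0 ∧ Y.m.re ≠ 0) ∨ (X.m.re ≠ 0 ∧ Y.b.re ≠ 0) := by
    by_contra hcon
    rw [not_or, not_and_or, not_and_or, not_not, not_not, not_not, not_not] at hcon
    apply main
    rcases hcon with ⟨h1 | h1, h2 | h2⟩ <;> simp [h1, h2]
  rcases cases2 with ⟨h1, h2⟩ | ⟨h1, h2⟩
  · have Xa : X.a = 0 := Lam.eq_zero_of_unit h1 (by rw [mul_comm]; exact Xb)
    have Ya : Y.a = 0 := Lam.eq_zero_of_unit h2 (by rw [mul_comm]; exact Ym)
    have Xm0 : X.m = 0 := by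
      refine Lam.eq_zero_of_unit h1 (Lam.eq_zero_of_unit e2 ?_)
      rw [Xa] at Xf
      linear_combination Xf
    have Yb0 : Y.b = 0 := by
      refine Lam.eq_zero_of_unit h2 (Lam.eq_zero_of_unit e2 ?_)
      rw [Ya] at Yf
      linear_combination Yf
    rw [Xa, Ya, Xm0, Yb0] at YXf
    have h3 : X.b * (Y.m * (e - Lam.C (σ c))) = 0 := by
      linear_combination YXf
    have h4 := Lam.eq_zero_of_unit h2 (Lam.eq_zero_of_unit h1 h3)
    have h5 := congrArg Lam.im h4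
    simp [eim] at h5
  · have Xa : X.a = 0 := Lam.eq_zero_of_unit h1 (by rw [mul_comm]; exact Xm)
    have Ya : Y.a = 0 := Lam.eq_zero_of_unit h2 (by rw [mul_comm]; exact Yb)
    have Xb0 : X.b = 0 := by
      refine Lam.eq_zero_of_unit h1 (Lam.eq_zero_of_unit e2 ?_)
      rw [Xa] at Xf
      linear_combination Xf
    have Ym0 : Y.m = 0 := by
      refine Lam.eq_zero_of_unit h2 (Lam.eq_zero_of_unit e2 ?_)
      rw [Ya] at Yf
      linear_combination Yf
    rw [Xa, Ya, Xb0, Ym0] at YXf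
    have h3 : X.m * (Y.b * (1 - Lam.C (σ c) * e)) = 0 := by
      linear_combination YXf
    have h4 := Lam.eq_zero_of_unit h2 (Lam.eq_zero_of_unit h1 h3)
    have h5 := congrArg Lam.im h4
    have h6 := congrArg Lam.re h4
    simp [eim] at h5
    simp [h5] at h6

/-- coordinates of the translation by `r`. -/
def emb {e : Lam K} (r : Alg e) : Idx → K :=
  Sum.elim (co r) (Sum.elim (co (1 : Alg e)) (fun _ => 1))

theorem co_smul {e : Lam K} (l : K) (r : Alg e) (k : Fin 8) :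
    co (Alg.L (Lam.C l) * r) k = l * co r k := by
  fin_cases k <;> simp [co]

theorem ext_co {e : Lam K} {r s : Alg e} (h : ∀ k, co r k = co s k) : r = s := by
  have : co r = co s := funext h
  rw [← ofco_co r, ← ofco_co s, this]

theorem eval_aeval_poly {κ : Type} (f : κ → Polynomial K) (z : K) (p : MvPolynomial κ K) :
    Polynomial.eval z (aeval f p) = eval (fun j => Polynomial.eval z (f j)) p := by
  induction p using MvPolynomial.induction_on with
  | C a => simp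
  | add p q hp hq => simp [hp, hq]
  | mul_X p i hp => simp [hp]

theorem linear_aux [CharZero K] {e1 e2 : Lam K} (σ : K ≃+* K) (F : Alg e1 → Alg e2)
    (Fadd : ∀ r s, F (r + s) = F r + F s)
    (Q : Fin 8 → MvPolynomial Idx K)
    (hQ : ∀ r i, co (F r) i = eval (fun j => σ (emb r j)) (Q i)) (l : K) (r : Alg e1) :
    F (Alg.L (Lam.C l) * r) = Alg.L (Lam.C (σ l)) * F r := by
  have Fnat : ∀ n : ℕ, F (Alg.L (Lam.C (n : K)) * r) = Alg.L (Lam.C (n : K)) * F r := by
    intro n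
    induction n with
    | zero =>
      have : F 0 = 0 := by
        have := Fadd 0 0
        rw [add_zero] at this
        exact left_eq_add.1 this
      simp [this]
    | succ n ih =>
      rw [Nat.cast_succ, map_add, map_add, map_one, map_one, add_mul, one_mul, Fadd, ih]
      rw [map_add, map_one, add_mul, one_mul]
  apply ext_co
  intro k
  rw [co_smul, hQ]
  obtain ⟨q, hq⟩ : ∃ q : Polynomial K, ∀ z : K, Polynomial.eval (σ z) q =
      eval (fun j => σ (emb (Alg.L (Lam.C z) * r) j)) (Q k) - σ z * co (F r) k := by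
    refine ⟨aeval (Sum.elim (fun j : Fin 8 => Polynomial.X * Polynomial.C (σ (co r j)))
      (fun j => Polynomial.C (σ (emb r (Sum.inr j))))) (Q k)
      - Polynomial.X * Polynomial.C (co (F r) k), fun z => ?_⟩
    simp only [Polynomial.eval_sub, Polynomial.eval_mul, Polynomial.eval_X, Polynomial.eval_C]
    rw [eval_aeval_poly]
    congr 2
    congr 1
    funext j
    rcases j with j | j
    · simp only [Sum.elim_inl, Polynomial.eval_mul, Polynomial.eval_X, Polynomial.eval_C]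
      change σ z * σ (co r j) = σ (co (Alg.L (Lam.C z) * r) j)
      rw [co_smul, map_mul]
    · simp only [Sum.elim_inr, Polynomial.eval_C]
      rfl
  have hq0 : q = 0 := by
    apply Polynomial.eq_zero_of_infinite_isRoot
    refine Set.Infinite.mono ?_ (Set.infinite_range_of_injective (Nat.cast_injective (R := K)))
    rintro _ ⟨n, rfl⟩
    have h1 := hq (n : K)
    rw [map_natCast, ← hQ, Fnat, co_smul, sub_self] at h1
    exact h1
  have h2 := hq l
  rw [hq0, Polynomial.eval_zero] at h2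
  linear_combination (-1 : K) * h2

theorem abstract_aux [CharZero K] (c : K) (hc1 : c ≠ 1) (hc2 : 1 + c ≠ 0)
    (e : Lam K) (ere : e.re = c) (eim : e.im = 1)
    (Φ : Aff (Alg (⟨c, 0⟩ : Lam K)) ≃* Aff (Alg e)) (σ : K ≃+* K)
    (Q : Fin 8 → MvPolynomial Idx K)
    (hQ : ∀ r i, co (Φ (Aff.tr r)).s i = eval (fun j => σ (emb r j)) (Q i)) : False := by
  obtain ⟨F, hF⟩ : ∃ F : Alg (⟨c, 0⟩ : Lam K) → Alg e, ∀ r, (Φ (Aff.tr r)).s = F r :=
    ⟨_, fun r => rfl⟩
  simp only [hF] at hQ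
  have hFt : ∀ r, Φ (Aff.tr r) = Aff.tr (F r) := by
    intro r
    rw [← hF]
    exact Aff.eq_tr ((deep_iff _).1 (((deep_iff (Aff.tr r)).2 rfl).map Φ.toMonoidHom))
  have Fadd : ∀ r s, F (r + s) = F r + F s := by
    intro r s
    have : Aff.tr (F (r + s)) = Aff.tr (F r + F s) := by
      rw [← hFt, Aff.tr_add, map_mul, hFt, hFt, ← Aff.tr_add]
    exact congrArg Aff.s this
  have Fsurj : Function.Surjective F := by
    intro s
    have h1 : (Φ.symm (Aff.tr s)).u = 1 :=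
      (deep_iff _).1 (((deep_iff (Aff.tr s)).2 rfl).map Φ.symm.toMonoidHom)
    refine ⟨(Φ.symm (Aff.tr s)).s, ?_⟩
    have h2 := hFt (Φ.symm (Aff.tr s)).s
    rw [← Aff.eq_tr h1, Φ.apply_symm_apply] at h2
    exact (congrArg Aff.s h2).symm
  have Finj : ∀ r s, F r = F s → r = s := by
    intro r s h
    have h1 : Φ (Aff.tr r) = Φ (Aff.tr s) := by rw [hFt, hFt, h]
    exact congrArg Aff.s (Φ.injective h1)
  have Fmul : ∀ (u : (Alg (⟨c, 0⟩ : Lam K))ˣ), ∃ v : (Alg e)ˣ, ∀ r, F (u * r) = v * F r := by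
    intro u
    refine ⟨(Φ (Aff.ml u)).u, fun r => ?_⟩
    have h1 : Aff.tr (F (u * r)) = Aff.tr ((Φ (Aff.ml u)).u * F r) := by
      rw [← hFt, ← Aff.conj_tr, ← hFt, ← map_inv, ← map_mul, ← map_mul, Aff.conj_tr, Aff.ml_u]
    exact congrArg Aff.s h1
  choose v hv using Fmul
  have hlin := linear_aux σ F Fadd Q hQ
  obtain ⟨w, hw⟩ : ∃ w, w = F 1 := ⟨_, rfl⟩
  have hFu : ∀ u : (Alg (⟨c, 0⟩ : Lam K))ˣ, F u = v u * w := by
    intro u
    have := hv u 1
    rwa [mul_one, ← hw] at this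
  have hFw : ∀ r, ∃ s, F r = s * w := by
    intro r
    rcases Alg.isUnit_or r with h | h
    · obtain ⟨u, rfl⟩ := h
      exact ⟨_, hFu u⟩
    · obtain ⟨u, hu⟩ := h
      refine ⟨v u - 1, ?_⟩
      have h1 := hFu u
      rw [hu, Fadd, ← hw] at h1
      rw [sub_mul, one_mul, ← h1, add_sub_cancel_right]
  have wunit : IsUnit w := by
    obtain ⟨r, hr⟩ := Fsurj 1
    obtain ⟨s, hs⟩ := hFw r
    exact Alg.isUnit_of_mul_eq_one (hs.symm.trans hr)
  obtain ⟨W, hW⟩ := wunit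
  have wW : w * ((W⁻¹ : (Alg e)ˣ) : Alg e) = 1 := by rw [← hW]; exact W.mul_inv
  have Ww : ((W⁻¹ : (Alg e)ˣ) : Alg e) * w = 1 := by rw [← hW]; exact W.inv_mul
  have hunit : ∀ u : (Alg (⟨c, 0⟩ : Lam K))ˣ, F u * ((W⁻¹ : (Alg e)ˣ) : Alg e) = v u := by
    intro u
    rw [hFu, mul_assoc, wW, mul_one]
  refine no_ring_iso c hc1 hc2 σ e ere eim (fun r => F r * ((W⁻¹ : (Alg e)ˣ) : Alg e)) ?_ ?_ ?_ ?_ ?_
  · intro r s
    simp only [Fadd, add_mul]
  · intro r s
    have hu : ∀ u : (Alg (⟨c, 0⟩ : Lam K))ˣ, F (u * s) * ((W⁻¹ : (Alg e)ˣ) : Alg e) =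
        F u * ((W⁻¹ : (Alg e)ˣ) : Alg e) * (F s * ((W⁻¹ : (Alg e)ˣ) : Alg e)) := by
      intro u
      rw [hunit, hv, mul_assoc]
    rcases Alg.isUnit_or r with h | h
    · obtain ⟨u, rfl⟩ := h
      exact hu u
    · obtain ⟨u, hu'⟩ := h
      have h1 := hu u
      rw [hu', add_mul, one_mul, Fadd, Fadd, add_mul, add_mul, add_mul, ← hw, wW, one_mul] at h1
      exact add_right_cancel h1
  · intro r hr
    have hr' : F r * ((W⁻¹ : (Alg e)ˣ) : Alg e) = 0 := hr
    have h1 : F r = 0 := by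
      have := congrArg (fun z => z * w) hr'
      simpa only [mul_assoc, Ww, mul_one, zero_mul] using this
    have h2 : F 0 = 0 := by
      have := Fadd 0 0
      rw [add_zero] at this
      exact left_eq_add.1 this
    exact Finj _ _ (h1.trans h2.symm)
  · intro s
    obtain ⟨r, hr⟩ := Fsurj (s * w)
    refine ⟨r, ?_⟩
    change F r * ((W⁻¹ : (Alg e)ˣ) : Alg e) = s
    rw [hr, mul_assoc, wW, mul_one]
  · intro l r
    rw [hlin, mul_assoc]

/-- No isomorphism between the groups of points is semialgebraic. -/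
theorem no_semialgebraic [CharZero K] (c : K) (hc1 : c ≠ 1) (hc2 : 1 + c ≠ 0)
    (φ : (grpOf (⟨c, 0⟩ : Lam K)).carrier ≃* (grpOf (⟨c, 1⟩ : Lam K)).carrier) :
    ¬ IsSemialgebraic φ := by
  rintro ⟨σ, P, hP⟩
  refine abstract_aux c hc1 hc2 ⟨c, 1⟩ rfl rfl
    ((ptsMul ⟨c, 0⟩).symm.trans (φ.trans (ptsMul ⟨c, 1⟩))) σ (fun i => P (Sum.inl i)) ?_
  intro r i
  have h1 := hP ((ptsMul ⟨c, 0⟩).symm (Aff.tr r)) (Sum.inl i)
  have h2 : ((ptsMul (⟨c, 0⟩ : Lam K)).symm (Aff.tr r)).1 = emb r := by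
    funext j
    rcases j with j | j | j
    · rfl
    · rfl
    · change (1 : K)⁻¹ = 1
      exact inv_one
  rw [h2] at h1
  exact Eq.trans (congrFun (co_ofco _) i) h1

end H13.SA
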