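import Mathlib
import Pool.Agent.H13.SA.Der
import Pool.Agent.H13.SA.NoSA

set_option autoImplicit false

namespace H13.SA

open Pool.Agent.Results.MP_83c24b_al

theorem counterexample (K : Type) [Field K] [CharZero K] (c : K) (hc : Transcendental ℚ c) :
    CounterexampleOver K := by
  have hc1 : c ≠ 1 := by
    rintro rfl
    exact hc isAlgebraic_one
  have hc2 : 1 + c ≠ 0 := by
    intro h
    apply hc
    rw [← neg_eq_of_add_eq_zero_right h]
    exact isAlgebraic_one.neg
  obtain ⟨f⟩ := exists_iso K c hc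
  exact ⟨grpOf ⟨c, 0⟩, grpOf ⟨c, 1⟩, grpOf_irred _, grpOf_irred _, grpOf_centre _, grpOf_centre _,
    grpOf_indec _, grpOf_indec _,
    ⟨(ptsMul _).trans ((affEquiv f).trans (ptsMul _).symm)⟩, no_semialgebraic c hc1 hc2⟩

theorem main : (∀ (K : Type) [Field K] [IsAlgClosed K] [CharZero K],
    (∃ c : K, Transcendental ℚ c) → CounterexampleOver K) ∧ CounterexampleOver ℂ := by
  refine ⟨fun K _ _ _ h => ?_, ?_⟩
  · obtain ⟨c, hc⟩ := h
    exact counterexample K c hc
  · obtain ⟨c, hc⟩ := exists_transcendental_complex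
    exact counterexample ℂ c hc

end H13.SA
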